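import Pool.Agent.helper26.IM.SpecA

/-!
# im:NFM: certificates are mapped by field homomorphisms
-/

set_option autoImplicit false

open Finset

namespace Pool.Agent.helper26.IM

open Pool.Agent.RRank Pool.Agent.helper35.MR

theorem NFM : NFM_stmt := by
  intro K L _ _ φ ι _ M h
  obtain ⟨p, q, r, A, B, C, s, t, u, hpqr, hA, hB, hC, hev⟩ := h
  refine ⟨p, q, r, fun a i => φ (A a i), fun a i => φ (B a i), fun a i => φ (C a i), s, t, u, hpqr,
    fun a b => ?_, fun a b => ?_, fun a b => ?_, fun a b c => ?_⟩
  · show φ (A a (s b)) = _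
    rw [hA]
    split_ifs
    · exact map_one φ
    · exact map_zero φ
  · show φ (B a (t b)) = _
    rw [hB]
    split_ifs
    · exact map_one φ
    · exact map_zero φ
  · show φ (C a (u b)) = _
    rw [hC]
    split_ifs
    · exact map_one φ
    · exact map_zero φ
  · have h1 := congrArg φ (hev a b c)
    rw [map_zero] at h1
    rw [← h1]
    simp only [ev3, map_sum, map_mul]

end Pool.Agent.helper26.IM
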